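import Pool.Agent.helper4.HL.Spec

/-!
# hl: NEL, the limit state (helper77)
-/

set_option autoImplicit false

open scoped BigOperators ComplexOrder ComplexConjugate Topology

namespace Pool.Agent.HL

open Pool.Agent.helper86.CM Pool.Agent.QS Filter MeasureTheory

noncomputable section

theorem NEL (hNE2 : NE2_stmt) (hSUB : SUB_stmt) (hPDL : PDL_stmt) (hPHL : PHL_stmt) : NEL_stmt := by
  intro A B hB hBA c F hc hF
  obtain ⟨k, N, hNZ, W, hk, hN, hW, hlim⟩ := hF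
  have hΨ : ∀ j, ∃ Ψ : PP → ℂ,
    PD (fun x y => QS.hN (N j) (x.1 + pw B (k j : ℤ) x.2) (y.1 + pw B (k j : ℤ) y.2)) Ψ ∧
    Ψ 0 = 1 ∧
    (∀ x, Ψ (BB B x) = Ψ x) ∧ (∀ n, Ψ (n, 0) = W j n) ∧ (∀ n, Ψ (0, n) = W j n) ∧
    ∀ x, ‖Ψ x‖ ≤ 1 := by
    intro j
    have := hNZ j
    exact hNE2 A B A.trace hB hBA (k j) (N j) (W j) (hW j)
  choose Ψ h1 h2 h3 h4 h5 h6 using hΨ
  obtain ⟨φ, Φ, hφ, hΦ⟩ := hSUB PP Ψ h6
  have hφt : Tendsto φ atTop atTop := hφ.tendsto_atTop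
  have hkφ : Tendsto (fun j => k (φ j)) atTop atTop := hk.comp hφt
  have hNφ : Tendsto (fun j => (N (φ j) : ℝ) / lam A.trace ^ (k (φ j))) atTop (𝓝 c) :=
    hN.comp hφt
  have hform := hPHL B A.trace hB (fun j => k (φ j)) (fun j => N (φ j)) c hc hkφ hNφ
  refine ⟨Φ, ?_, ?_, ?_, ?_, ?_⟩
  · exact hPDL PP (fun j x y => QS.hN (N (φ j)) (x.1 + pw B (k (φ j) : ℤ) x.2)
        (y.1 + pw B (k (φ j) : ℤ) y.2)) (hx B A.trace (((lam A.trace) - (lam A.trace)⁻¹) * c)⁻¹)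
        (fun j => Ψ (φ j)) Φ hform hΦ (fun j => h1 (φ j))
  · refine tendsto_nhds_unique (hΦ 0) ?_
    simp only [h2]
    exact tendsto_const_nhds
  · intro x
    refine tendsto_nhds_unique (hΦ (BB B x)) ?_
    simp only [h3]
    exact hΦ x
  · intro n
    refine tendsto_nhds_unique (hΦ (n, 0)) ?_
    simp only [h4]
    exact (hlim n).comp hφt
  · intro n
    refine tendsto_nhds_unique (hΦ (0, n)) ?_
    simp only [h5]
    exact (hlim n).comp hφt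

end

end Pool.Agent.HL
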