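import Pool.Agent.helper4.HL.Spec

/-!
# hl: UDA (helper77)
-/

set_option autoImplicit false

open scoped BigOperators ComplexOrder ComplexConjugate Topology

namespace Pool.Agent.HL

open Pool.Agent.helper86.CM Pool.Agent.QS Filter MeasureTheory

noncomputable section

theorem UDA_norm_ee (x : ℝ) : ‖ee x‖ = 1 := by
  rw [ee, show (2 * Real.pi * Complex.I * x : ℂ) = ((2 * Real.pi * x : ℝ) : ℂ) * Complex.I by
    push_cast; ring]
  exact Complex.norm_exp_ofReal_mul_I _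

theorem UDA_cont : Continuous ee := by
  unfold ee
  fun_prop

/-- the mean -/
def UDA_M (l κ : ℝ) (m : ℕ) (x : ℝ) : ℂ := (m : ℂ)⁻¹ * ∑ s ∈ Finset.range m, ee (l ^ s * κ * x)

theorem UDA_M_cont (l κ : ℝ) (m : ℕ) : Continuous (UDA_M l κ m) := by
  unfold UDA_M
  refine continuous_const.mul (continuous_finsetSum _ fun s _ => ?_)
  exact UDA_cont.comp (continuous_const.mul continuous_id)

theorem UDA_step (l κ x : ℝ) (m : ℕ) (hm : 1 ≤ m) :
    ‖UDA_M l κ m x‖ ≤ ‖UDA_M l κ (Nat.sqrt m ^ 2) x‖ + 2 / (Nat.sqrt m : ℝ) := by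
  set j := Nat.sqrt m with hj
  have hj1 : 1 ≤ j := Nat.le_sqrt.2 (by simpa using hm)
  have hjm : j ^ 2 ≤ m := Nat.sqrt_le' m
  have hmj : m ≤ j ^ 2 + 2 * j := by
    have := Nat.sqrt_le_add m
    rw [← hj] at this
    nlinarith
  have hj0 : (0 : ℝ) < j := by exact_mod_cast hj1
  have hm0 : (0 : ℝ) < m := by exact_mod_cast hm
  set f : ℕ → ℂ := fun s => ee (l ^ s * κ * x) with hf
  have h1 : ∑ s ∈ Finset.range m, f s = ∑ s ∈ Finset.range (j ^ 2), f s + ∑ s ∈ Finset.Ico (j ^ 2) m, f s :=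
    (Finset.sum_range_add_sum_Ico _ hjm).symm
  have h2 : ‖∑ s ∈ Finset.Ico (j ^ 2) m, f s‖ ≤ 2 * j := by
    calc _ ≤ ∑ s ∈ Finset.Ico (j ^ 2) m, ‖f s‖ := norm_sum_le _ _
      _ = ∑ s ∈ Finset.Ico (j ^ 2) m, (1 : ℝ) := Finset.sum_congr rfl fun s _ => UDA_norm_ee _
      _ = ((m - j ^ 2 : ℕ) : ℝ) := by simp
      _ ≤ 2 * j := by
          have : m - j ^ 2 ≤ 2 * j := by omega
          exact_mod_cast this
  have h3 : ‖UDA_M l κ m x‖ = (m : ℝ)⁻¹ * ‖∑ s ∈ Finset.range m, f s‖ := by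
    rw [UDA_M, norm_mul, norm_inv, Complex.norm_natCast]
  have h4 : ‖UDA_M l κ (j ^ 2) x‖ = ((j : ℝ) ^ 2)⁻¹ * ‖∑ s ∈ Finset.range (j ^ 2), f s‖ := by
    rw [UDA_M, norm_mul, norm_inv, Complex.norm_natCast]
    push_cast
    rfl
  have h5 : (m : ℝ)⁻¹ ≤ ((j : ℝ) ^ 2)⁻¹ := by
    apply inv_anti₀ (by positivity)
    exact_mod_cast hjm
  rw [h3, h4, h1]
  calc (m : ℝ)⁻¹ * ‖∑ s ∈ Finset.range (j ^ 2), f s + ∑ s ∈ Finset.Ico (j ^ 2) m, f s‖
      ≤ ((j : ℝ) ^ 2)⁻¹ * (‖∑ s ∈ Finset.range (j ^ 2), f s‖ + 2 * j) := by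
        refine mul_le_mul h5 ((norm_add_le _ _).trans (by gcongr)) (norm_nonneg _) (by positivity)
    _ = _ := by
        field_simp

theorem UDA_ae (hUDI : UDI_stmt) (l κ : ℝ) (hl : 2 ≤ l) (hκ : κ ≠ 0) (K : ℕ) :
    ∀ᵐ x ∂(volume.restrict (Set.Ioc (-(K : ℝ)) K)),
      Tendsto (fun j : ℕ => ‖UDA_M l κ ((j + 1) ^ 2) x‖ ^ 2) atTop (𝓝 0) := by
  have hK : (-(K : ℝ)) ≤ K := by
    have : (0 : ℝ) ≤ K := Nat.cast_nonneg K
    linarith
  obtain ⟨C, hC0, hC⟩ := hUDI (-(K : ℝ)) K l κ hK hl hκ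
  have hcont : ∀ j : ℕ, Continuous fun x => ‖UDA_M l κ ((j + 1) ^ 2) x‖ ^ 2 := fun j =>
    ((UDA_M_cont l κ _).norm).pow 2
  have h1 : ∀ j : ℕ, ∫⁻ x in Set.Ioc (-(K : ℝ)) K, ENNReal.ofReal (‖UDA_M l κ ((j + 1) ^ 2) x‖ ^ 2) ≤
      ENNReal.ofReal (C / ((j : ℝ) + 1) ^ 2) := by
    intro j
    have h2 := hC ((j + 1) ^ 2) (Nat.one_le_pow _ _ (Nat.succ_pos j))
    rw [intervalIntegral.integral_of_le hK] at h2
    rw [← ofReal_integral_eq_lintegral_ofReal]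
    · apply ENNReal.ofReal_le_ofReal
      refine h2.trans (le_of_eq ?_)
      push_cast
      rfl
    · exact ((hcont j).integrableOn_Icc).mono_set Set.Ioc_subset_Icc_self
    · exact Eventually.of_forall fun x => by positivity
  have h2 : ∫⁻ x in Set.Ioc (-(K : ℝ)) K, ∑' j : ℕ, ENNReal.ofReal (‖UDA_M l κ ((j + 1) ^ 2) x‖ ^ 2) ≠ ⊤ := by
    rw [lintegral_tsum fun j => ((hcont j).measurable.ennreal_ofReal).aemeasurable]
    have h3 : ∑' j : ℕ, ENNReal.ofReal (C / ((j : ℝ) + 1) ^ 2) ≠ ⊤ := by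
      apply Summable.tsum_ofReal_ne_top
      have h4 : Summable fun j : ℕ => C * (1 / ((j : ℝ)) ^ 2) :=
        (Real.summable_one_div_nat_pow.2 (by norm_num)).mul_left C
      have h5 := (summable_nat_add_iff 1).2 h4
      refine h5.congr fun j => ?_
      push_cast
      ring
    exact ne_top_of_le_ne_top h3 (ENNReal.tsum_le_tsum h1)
  have h3 := ae_lt_top' (AEMeasurable.tsum fun j => ((hcont j).measurable.ennreal_ofReal).aemeasurable) h2
  filter_upwards [h3] with x hx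
  have h4 := ENNReal.tendsto_atTop_zero_of_tsum_ne_top hx.ne
  have h5 := (ENNReal.tendsto_toReal (a := 0) ENNReal.zero_ne_top).comp h4
  refine h5.congr fun j => ?_
  simp only [Function.comp_apply]
  rw [ENNReal.toReal_ofReal (by positivity)]

theorem UDA (hUDI : UDI_stmt) : UDA_stmt := by
  intro l κ hl hκ
  have h1 : ∀ K : ℕ, ∀ᵐ x : ℝ, x ∈ Set.Ioc (-(K : ℝ)) K →
      Tendsto (fun j : ℕ => ‖UDA_M l κ ((j + 1) ^ 2) x‖ ^ 2) atTop (𝓝 0) := fun K =>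
    (ae_restrict_iff' measurableSet_Ioc).1 (UDA_ae hUDI l κ hl hκ K)
  filter_upwards [ae_all_iff.2 h1] with x hx
  obtain ⟨K, hK⟩ := exists_nat_gt |x|
  have hxK : x ∈ Set.Ioc (-(K : ℝ)) K := ⟨by linarith [neg_abs_le x], by linarith [le_abs_self x]⟩
  have h2 := hx K hxK
  have h3 : Tendsto (fun j : ℕ => ‖UDA_M l κ ((j + 1) ^ 2) x‖) atTop (𝓝 0) := by
    have h4 := h2.sqrt
    simp only [Real.sqrt_zero] at h4
    refine h4.congr fun j => ?_
    exact Real.sqrt_sq (norm_nonneg _)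
  have h4 : Tendsto (fun j : ℕ => ‖UDA_M l κ (j ^ 2) x‖ + 2 / (j : ℝ)) atTop (𝓝 0) := by
    have h5 : Tendsto (fun j : ℕ => ‖UDA_M l κ (j ^ 2) x‖) atTop (𝓝 0) :=
      (tendsto_add_atTop_iff_nat 1).1 h3
    have h6 : Tendsto (fun j : ℕ => (2 : ℝ) / (j : ℝ)) atTop (𝓝 0) :=
      tendsto_const_div_atTop_nhds_zero_nat 2
    simpa using h5.add h6
  have h5 : Tendsto Nat.sqrt atTop atTop := by
    refine tendsto_atTop.2 fun b => ?_
    filter_upwards [eventually_ge_atTop (b ^ 2)] with m hm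
    exact Nat.le_sqrt'.2 hm
  have h6 := h4.comp h5
  rw [tendsto_zero_iff_norm_tendsto_zero]
  refine squeeze_zero' (Eventually.of_forall fun m => norm_nonneg _) ?_ h6
  filter_upwards [eventually_ge_atTop 1] with m hm
  exact UDA_step l κ x m hm

end

end Pool.Agent.HL
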